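import Pool.Agent.H211.HY.Stm3
import Pool.Agent.H922.HY211.NORM

/-!
# Normalisation, second version: infinity is not in the critical orbits
(adaptation of `Pool/Agent/H922/HY211/NORM.lean`)
-/

set_option autoImplicit false

open Topology Filter Metric Set MeasureTheory Polynomial

namespace Pool.Agent.H721.HY211

open Pool.Agent.H790R3.RB Pool.Agent.H790R3.RB.ALL Pool.Agent.H211.HY Pool.Agent.H922.HY211

/-- `PCF` is invariant under linear conjugation -/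
theorem PCF_L {d : ℕ} {a b c e : ℂ} {x y : CV d} (hd : 2 ≤ d) (hdet : a * e - b * c = 1)
    (hR : Rel a b c e x y) (h : PCF x) : PCF y := by
  intro q hq hw
  obtain ⟨p, hp, rfl⟩ := L_surj hdet hq
  rw [wr_L hd hdet hR] at hw
  obtain ⟨n, hn, c', hc', hwc, hcr⟩ := h p hp hw
  refine ⟨n, hn, L a b c e c', L_ne hdet hc', ?_, ?_⟩
  · rw [wr_L hd hdet hR, hwc]
  · rw [hF_iter_L hdet hR, cr_L hdet, hcr]

theorem t_NORM2 : S_NORM2 := by
  intro d x hX hyp' ε hε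
  have hd := hX.hd
  have hd1 : 1 ≤ d := by omega
  obtain ⟨t, ht⟩ := avoid x hd hX.ce
  obtain ⟨cj, hcd, -, -, -, hcj⟩ := CJ d
  have hdet : (1 : ℂ) * 1 - 0 * t = 1 := by ring
  have hdet' : (1 : ℂ) * 1 - 0 * (-t) = 1 := by ring
  set m : (ℂ × ℂ) × (ℂ × ℂ) := ((1, 0), (t, 1)) with hm
  set mi : (ℂ × ℂ) × (ℂ × ℂ) := ((1, 0), (-t, 1)) with hmi
  set y : CV d := cj m x with hy
  have hR1 : Rel 1 0 t 1 x y := fun p => by rw [hy, hcj m x p]
  have hR2 : ∀ z : CV d, Rel 1 0 (-t) 1 z (cj mi z) := fun z p => by rw [hcj mi z p]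
  have hNDy : ND y := nd_of_rel hdet hR1 hX.nd
  have hback : cj mi y = x := by
    apply hF_inj
    intro p
    rw [hR2 y p]
    have e1 := rel_apply hdet hR1 p
    have e2 : ((1 * p.1 - 0 * p.2, 1 * p.2 - -t * p.1) : ℂ × ℂ) =
        (1 * p.1 + 0 * p.2, t * p.1 + 1 * p.2) := by
      refine Prod.ext ?_ ?_
      · change 1 * p.1 - 0 * p.2 = 1 * p.1 + 0 * p.2
        ring
      · change 1 * p.2 - -t * p.1 = t * p.1 + 1 * p.2
        ring
    rw [e2, e1]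
    refine Prod.ext ?_ ?_
    · change 1 * (1 * (hF x p).1 + 0 * (hF x p).2) +
        0 * (t * (hF x p).1 + 1 * (hF x p).2) = (hF x p).1
      ring
    · change -t * (1 * (hF x p).1 + 0 * (hF x p).2) +
        1 * (t * (hF x p).1 + 1 * (hF x p).2) = (hF x p).2
      ring
  -- the hypotheses for `y`
  have hHy : Hyp0 y := ⟨hd, hNDy, CE_L hd hX.nd hdet hR1 hX.ce, fun hL =>
    hX.lat (Lat_L hd hdet hR1 hL)⟩
  have hNy2 : ∀ c : ℂ × ℂ, c ≠ 0 → wr y c = 0 → ∀ n : ℕ, ((hF y)^[n] c).2 ≠ 0 := by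
    intro q hq hw n
    obtain ⟨p, hp, rfl⟩ := L_surj hdet hq
    rw [wr_L hd hdet hR1] at hw
    rw [hF_iter_L hdet hR1]
    change t * ((hF x)^[n] p).1 + 1 * ((hF x)^[n] p).2 ≠ 0
    rw [one_mul]
    exact ht p hp hw hX.nd n
  have hNy : Nrm y := ⟨fun h => hNy2 (1, 0) (by simp) h 0 rfl, hNy2⟩
  have hcont : Continuous (fun z : CV d => cj mi z) :=
    hcd.continuous.comp (continuous_const.prodMk continuous_id)
  obtain ⟨δ, hδ, hδε⟩ := Metric.continuous_iff.1 hcont y ε hε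
  obtain ⟨z, hz, hNDz, hHz, hPz⟩ := hyp' y hHy hNy δ hδ
  have hND2 : ND (cj mi z) := nd_of_rel hdet' (hR2 z) hNDz
  refine ⟨cj mi z, ?_, hND2, ?_, PCF_L hd hdet' (hR2 z) hPz⟩
  · have := hδε z (by rw [dist_eq_norm]; exact hz)
    rw [hback, dist_eq_norm] at this
    exact this
  · obtain ⟨h', hh', -⟩ := MOB SP 1 0 (-t) 1 (by rw [hdet']; exact one_ne_zero)
    exact hyp h' (semi SP hd1 hNDz hND2 hdet' (hR2 z) h' hh') hHz

end Pool.Agent.H721.HY211
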