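import Pool.Agent.H211.HY.Stm5
import Pool.Agent.H249.HY211.SCALE

/-!
# Good scales with a rate (helper721, for helper211; after helper249)
-/

set_option autoImplicit false

namespace Pool.Agent.H721.HY211

open Finset
open Pool.Agent.H249.HY211 (exists_N count1 close_le count2)

/-- good scales with a rate -/
theorem scale2 (k : ℕ) (C c μ : ℝ) (p x : Fin k → ℕ → ℝ) (hC : 1 ≤ C) (hc : 0 < c) (hμ : 1 < μ)
    (h0 : ∀ i, p i 0 = 1) (hp : ∀ i n, c * μ ^ n ≤ p i n) (hx : ∀ i n, 0 < x i n ∧ x i n ≤ 1)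
    (hrec : ∀ i n, p i (n + 1) ≤ C * x i n * p i n) (θ : ℝ) (hθ : 0 < θ) (A : ℝ) :
    ∃ ε > (0 : ℝ), ∃ B T₀ : ℕ, ∀ T ≥ T₀, ∃ r : ℝ,
      (1 / 2 : ℝ) ^ (2 * T) ≤ r ∧ r ≤ (1 / 2 : ℝ) ^ T ∧
      ∀ i, ∃ N ≤ B * T, ∑ n ∈ Finset.range N, r * p i n / x i n ≤ θ ∧
        (ε ≤ r * p i N ∨ A * x i N ≤ r * p i N) := by
  classical
  obtain ⟨a, ha⟩ := pow_unbounded_of_one_lt (2 : ℝ) hμ
  set θ' : ℝ := θ / (8 * (k + 1) * (a + 1)) with hθ'
  have hθ'0 : 0 < θ' := by positivity
  obtain ⟨b, hb⟩ := pow_unbounded_of_one_lt (θ' / c) hμ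
  obtain ⟨w, hw⟩ := pow_unbounded_of_one_lt (A / θ') (by norm_num : (1 : ℝ) < 2)
  have hw' : A ≤ θ' * 2 ^ w := by
    rw [div_lt_iff₀ hθ'0] at hw
    linarith
  set L : ℕ := 4 * (k + 1) * (w + 1) * (a + 1) with hL
  have hD : 1 < C + 1 := by linarith
  obtain ⟨e, he⟩ := pow_unbounded_of_one_lt (1 / c) hD
  have he' : 1 ≤ c * (C + 1) ^ e := by
    rw [div_lt_iff₀ hc] at he
    linarith
  set S : ℝ := ((C + 1)⁻¹) ^ L with hS
  have hS0 : 0 < S := by positivity
  have hq0 : ∀ i n, 0 < p i n := fun i n =>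
    lt_of_lt_of_le (by positivity) (hp i n)
  have hpc : ∀ i n, c ≤ p i n := fun i n =>
    le_trans (le_mul_of_one_le_right hc.le (one_le_pow₀ hμ.le)) (hp i n)
  have hpq : ∀ i n, p i n ≤ p i n / x i n := fun i n => by
    rw [le_div_iff₀ (hx i n).1]
    exact mul_le_of_le_one_right (hq0 i n).le (hx i n).2
  have hqpos : ∀ i n, 0 < p i n / x i n := fun i n => div_pos (hq0 i n) (hx i n).1
  have hbig : ∀ i m, θ' * 2 ^ m < p i (a * m + b) / x i (a * m + b) := by
    intro i m
    refine lt_of_lt_of_le ?_ ((hp i (a * m + b)).trans (hpq i _))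
    have h1 : θ' < c * μ ^ b := by
      rw [div_lt_iff₀ hc] at hb
      linarith
    calc θ' * 2 ^ m < (c * μ ^ b) * 2 ^ m := mul_lt_mul_of_pos_right h1 (by positivity)
      _ ≤ (c * μ ^ b) * (μ ^ a) ^ m :=
          mul_le_mul_of_nonneg_left (pow_le_pow_left₀ (by norm_num) ha.le m) (by positivity)
      _ = c * μ ^ (a * m + b) := by rw [pow_add, pow_mul]; ring
  choose N hN1 hN2 hN3 using fun i => exists_N (fun n => p i n / x i n) θ' a b (hbig i)
  have hLpos : (0 : ℝ) < L := by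
    rw [hL]
    push_cast
    positivity
  have hkpos : (0 : ℝ) ≤ k := Nat.cast_nonneg k
  have hapos : (0 : ℝ) ≤ a := Nat.cast_nonneg a
  have hwpos : (0 : ℝ) ≤ w := Nat.cast_nonneg w
  obtain ⟨K, hK⟩ : ∃ K : ℝ, K = k * (b * (2 * θ') / θ + w * (b + 1 + e) / L) := ⟨_, rfl⟩
  have hK0 : 0 ≤ K := by
    rw [hK]
    positivity
  refine ⟨θ' * S, by positivity, 2 * a + b, ⌈(k + 1) * (K + 1)⌉₊ + 1, fun T hT => ?_⟩
  have hT1 : 1 ≤ T := by omega
  have hTK : (k + 1) * (K + 1) ≤ (T : ℝ) := by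
    refine (Nat.le_ceil _).trans ?_
    exact_mod_cast (by omega : ⌈(k + 1) * (K + 1)⌉₊ ≤ T)
  -- the bad scales
  let B1 : ℕ → Fin k → Finset ℕ := fun T i =>
    (range T).filter fun m => θ < ∑ n ∈ range (N i m), (p i n / x i n) / 2 ^ m
  let B2 : ℕ → Fin k → Finset ℕ := fun T i =>
    (range T).filter fun m => x i (N i m) < S ∧ p i (N i m) / x i (N i m) ≤ A * 2 ^ m
  have hB1 : ∀ T i, ((B1 T i).card : ℝ) * θ ≤ (a * T + b) * (2 * θ') := fun T i =>
    count1 (fun n => (hqpos i n).le) hθ'0.le (hN1 i) (hN2 i) T θ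
  have hB2 : ∀ T i, L * (B2 T i).card ≤ w * (a * T + b + 1 + e) := fun T i => by
    have h1 : (B2 T i).card ≤ w * ((range (a * T + b + 1)).filter fun j => x i j < S).card :=
      count2 (q := fun n => p i n / x i n) (x := x i) (S := S) hθ'0 hw' (hN1 i) (hN3 i) T
    have h2 : L * ((range (a * T + b + 1)).filter fun j => x i j < S).card ≤
        a * T + b + 1 + e :=
      close_le hC hD (by linarith) hc he' (h0 i) (hpc i) (hx i) (hrec i) (a * T + b + 1)
    calc L * (B2 T i).card ≤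
        L * (w * ((range (a * T + b + 1)).filter fun j => x i j < S).card) :=
          Nat.mul_le_mul_left L h1
      _ = w * (L * ((range (a * T + b + 1)).filter fun j => x i j < S).card) := by ring
      _ ≤ w * (a * T + b + 1 + e) := Nat.mul_le_mul_left w h2
  have hTpos : (0 : ℝ) ≤ T := Nat.cast_nonneg T
  have c1 : ∀ i, ((B1 (2 * T) i).card : ℝ) ≤ 2 * T / (4 * (k + 1)) + b * (2 * θ') / θ := by
    intro i
    have h1 := hB1 (2 * T) i
    rw [← le_div_iff₀ hθ] at h1
    refine h1.trans ?_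
    push_cast
    have h2 : (a * (2 * T) + b) * (2 * θ') / θ =
        a * (2 * T) * (2 * θ') / θ + b * (2 * θ') / θ := by ring
    rw [h2]
    refine add_le_add_left ?_ _
    have h3 : a * (2 * T : ℝ) * (2 * θ') / θ = (2 * T / (4 * (k + 1))) * (a / (a + 1)) := by
      rw [hθ']
      field_simp
      ring
    rw [h3]
    refine mul_le_of_le_one_right (by positivity) ?_
    rw [div_le_one (by positivity)]
    linarith
  have c2 : ∀ i, ((B2 (2 * T) i).card : ℝ) ≤ 2 * T / (4 * (k + 1)) + w * (b + 1 + e) / L := by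
    intro i
    have h1 : (L : ℝ) * (B2 (2 * T) i).card ≤ w * (a * (2 * T) + b + 1 + e) := by
      exact_mod_cast hB2 (2 * T) i
    rw [mul_comm, ← le_div_iff₀ hLpos] at h1
    refine h1.trans ?_
    have h2 : (w : ℝ) * (a * (2 * T) + b + 1 + e) / L =
        w * a * (2 * T) / L + w * (b + 1 + e) / L := by ring
    rw [h2]
    refine add_le_add_left ?_ _
    have h3 : (w : ℝ) * a * (2 * T) / L =
        (2 * T / (4 * (k + 1))) * ((w / (w + 1)) * (a / (a + 1))) := by
      rw [hL]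
      push_cast
      field_simp
    rw [h3]
    refine mul_le_of_le_one_right (by positivity) ?_
    refine mul_le_one₀ ?_ (by positivity) ?_
    · rw [div_le_one (by positivity)]
      linarith
    · rw [div_le_one (by positivity)]
      linarith
  have hex : ∃ m ∈ range (2 * T),
      m ∉ range T ∪ (Finset.univ.biUnion fun i : Fin k => B1 (2 * T) i ∪ B2 (2 * T) i) := by
    by_contra hcon
    push Not at hcon
    have h1 : (range (2 * T)) ⊆
        range T ∪ (Finset.univ.biUnion fun i : Fin k => B1 (2 * T) i ∪ B2 (2 * T) i) :=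
      fun m hm => hcon m hm
    have h2 := (Finset.card_le_card h1).trans (Finset.card_union_le _ _)
    rw [Finset.card_range, Finset.card_range] at h2
    have h3 : ((Finset.univ.biUnion fun i : Fin k => B1 (2 * T) i ∪ B2 (2 * T) i).card : ℝ) ≤
        ∑ i : Fin k, (((B1 (2 * T) i).card : ℝ) + (B2 (2 * T) i).card) := by
      have h4 := Finset.card_biUnion_le (s := Finset.univ)
        (t := fun i : Fin k => B1 (2 * T) i ∪ B2 (2 * T) i)
      have h5 : ∑ i : Fin k, (B1 (2 * T) i ∪ B2 (2 * T) i).card ≤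
          ∑ i : Fin k, ((B1 (2 * T) i).card + (B2 (2 * T) i).card) :=
        Finset.sum_le_sum fun i _ => Finset.card_union_le _ _
      exact_mod_cast h4.trans h5
    have h6 : ∑ i : Fin k, (((B1 (2 * T) i).card : ℝ) + (B2 (2 * T) i).card) ≤
        ∑ _i : Fin k, ((2 * T / (4 * (k + 1)) + b * (2 * θ') / θ) +
          (2 * T / (4 * (k + 1)) + w * (b + 1 + e) / L) : ℝ) :=
      Finset.sum_le_sum fun i _ => add_le_add (c1 i) (c2 i)
    rw [Finset.sum_const, Finset.card_univ, Fintype.card_fin, nsmul_eq_mul] at h6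
    have h7 : (2 * T : ℝ) ≤
        T + (Finset.univ.biUnion fun i : Fin k => B1 (2 * T) i ∪ B2 (2 * T) i).card := by
      exact_mod_cast h2
    have h8 : (k : ℝ) * ((2 * T / (4 * (k + 1)) + b * (2 * θ') / θ) +
        (2 * T / (4 * (k + 1)) + w * (b + 1 + e) / L)) = T * (k / (k + 1)) + K := by
      rw [hK]
      field_simp
      ring
    have h9 : (T : ℝ) ≤ T * (k / (k + 1)) + K := by linarith
    have h10 : (T : ℝ) * (k / (k + 1)) = T - T / (k + 1) := by
      field_simp
      ring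
    have h11 : K + 1 ≤ T / (k + 1) := by
      rw [le_div_iff₀ (by positivity)]
      linarith
    linarith
  obtain ⟨m, hmT, hm⟩ := hex
  rw [Finset.mem_union, not_or] at hm
  obtain ⟨hm1, hm2⟩ := hm
  have hmM : T ≤ m := by
    rw [Finset.mem_range, not_lt] at hm1
    exact hm1
  have hmT' : m < 2 * T := Finset.mem_range.1 hmT
  refine ⟨(1 / 2 : ℝ) ^ m, pow_le_pow_of_le_one (by norm_num) (by norm_num) hmT'.le,
    pow_le_pow_of_le_one (by norm_num) (by norm_num) hmM, fun i => ⟨N i m, ?_, ?_, ?_⟩⟩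
  · refine (hN1 i m).trans ?_
    calc a * m + b ≤ a * (2 * T) + b * T :=
          Nat.add_le_add (Nat.mul_le_mul_left a hmT'.le) (Nat.le_mul_of_pos_right b hT1)
      _ = (2 * a + b) * T := by ring
  · have h1 : m ∉ B1 (2 * T) i := fun h => hm2 (Finset.mem_biUnion.2
      ⟨i, Finset.mem_univ i, Finset.mem_union_left _ h⟩)
    have h2 : ¬ θ < ∑ n ∈ range (N i m), (p i n / x i n) / 2 ^ m := fun h =>
      h1 (Finset.mem_filter.2 ⟨hmT, h⟩)
    refine le_trans (le_of_eq ?_) (not_lt.1 h2)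
    refine Finset.sum_congr rfl fun n _ => ?_
    rw [one_div, inv_pow]
    ring
  · have h1 : m ∉ B2 (2 * T) i := fun h => hm2 (Finset.mem_biUnion.2
      ⟨i, Finset.mem_univ i, Finset.mem_union_right _ h⟩)
    have hxpos := (hx i (N i m)).1
    have e1 : (1 / 2 : ℝ) ^ m * p i (N i m) =
        ((p i (N i m) / x i (N i m)) / 2 ^ m) * x i (N i m) := by
      rw [one_div, inv_pow]
      field_simp
    rw [e1]
    rcases lt_or_ge (x i (N i m)) S with h | h
    · right
      have h2 : ¬ p i (N i m) / x i (N i m) ≤ A * 2 ^ m := fun h' =>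
        h1 (Finset.mem_filter.2 ⟨hmT, h, h'⟩)
      refine mul_le_mul_of_nonneg_right ?_ hxpos.le
      rw [le_div_iff₀ (by positivity)]
      exact (not_le.1 h2).le
    · left
      refine mul_le_mul ?_ h hS0.le (by have := hqpos i (N i m); positivity)
      rw [le_div_iff₀ (by positivity)]
      exact (hN3 i m).le

theorem t_SCALE2 : Pool.Agent.H211.HY.S_SCALE2 := by
  intro k C c μ p x hC hc hμ h0 hp hx hrec θ hθ A _
  exact scale2 k C c μ p x hC hc hμ h0 hp hx hrec θ hθ A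

end Pool.Agent.H721.HY211
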